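import Pool.Agent.U828.KD.One
import Pool.Agent.U856.EH.M16

/-!
# The original level of Elliott and Halberstam for ALL the residues near almost all values of an arbitrary function of
higher convexity

Fix `r ≥ 2`. Let `f` be ANY function on `{1, ..., x}`, `x ≥ N ^ (1 / r + η)`, with values in `[-B N, B N]`, whose differences
of order `r` are all at least `N / (x ^ r log ^ C N)`, or all at most the negative of this number. Then for all but
`x / log ^ U N` of the `m ≤ x`, ALL the integers `b` with `|b - f m| ≤ log ^ C N` have the level of distribution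
`N / log ^ K N`, with arbitrary divisor bounded weights and with different shifts and lengths for the different moduli,
chosen in advance.

For `r = 2` these are the strictly convex (or concave) functions; for larger `r` there are only `N ^ (1 / r + η)` points, so
that the residues run through sets of any power `N ^ θ`, `θ > 0`, of elements, and no regularity is assumed besides the sign
and the size of the `r`-th differences. The earlier results of this problem on individual residues treat polynomial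
values and further explicit sequences (automatic and palindromic residues, digit permutations, Piatetski-Shapiro
residues, walks, short intervals) and families of nearly minimal additive energy.

Proof: the energy theorem `Pool.Agent.U828.KD.energy_r` (helper828: an `r`-th derivative test for arbitrary sequences, and
Fejér kernels), the passage to all the integers near the values `Pool.Agent.U828.KD.nearOne` (helper828), and the theorem
`Pool.Agent.U856.EH.few_fam` of helper856 on families of nearly minimal additive energy.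
-/

set_option autoImplicit false

namespace Pool.Agent.Results.MP_00e23e_nt.HigherConvexResidues

open Finset

/-- `ψ(y; q, b)`: the sum of `Λ(n)` over the positive integers `n ≤ y` with `n ≡ b (mod q)`. -/
noncomputable def psi (y q : ℕ) (b : ℤ) : ℝ :=
  ∑ n ∈ (Icc 1 y).filter (fun n : ℕ => (n : ℤ) ≡ b [ZMOD q]), ArithmeticFunction.vonMangoldt n

/-- `π(y; q, b)`: the number of the primes `n ≤ y` with `n ≡ b (mod q)`. -/
noncomputable def pi (y q : ℕ) (b : ℤ) : ℝ :=
  (((Icc 1 y).filter (fun n : ℕ => n.Prime ∧ (n : ℤ) ≡ b [ZMOD q])).card : ℝ)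

/-- `li y`: the integral of `1 / log t` over `[2, y]`; it is `0` for `y < 2`. -/
noncomputable def li (y : ℕ) : ℝ := if 2 ≤ y then ∫ t in (2 : ℝ)..y, 1 / Real.log t else 0

/-- The first error term: `ψ(y; q, b) - y / φ(q)`. -/
noncomputable def Epsi (y q : ℕ) (b : ℤ) : ℝ := psi y q b - (y : ℝ) / Nat.totient q

/-- The second error term, the one of the problem: `π(y; q, b) - li y / φ(q)`. -/
noncomputable def Epi (y q : ℕ) (b : ℤ) : ℝ := pi y q b - li y / Nat.totient q

/-- The sum of `λ(q) E(y(q); q, b + h(q))` over the `q ≤ Q` for which `b + h(q)` and `q` are coprime. -/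
noncomputable def weighted (E : ℕ → ℕ → ℤ → ℝ) (lam : ℕ → ℝ) (y : ℕ → ℕ) (h : ℕ → ℤ) (Q : ℕ) (b : ℤ) : ℝ :=
  ∑ q ∈ (Icc 1 Q).filter (fun q : ℕ => Int.gcd (b + h q) q = 1), lam q * E (y q) q (b + h q)

/-- The residue `b` has the level of distribution `N / log ^ K N`, for the weights `lam l`, the lengths `y l` and the shifts
`h l`: for all `l`, all `Q ≤ N / log ^ K N` and all the truncations `min z y_l(q)` of the lengths, `weighted` has absolute value at
most `N / log ^ U N`. -/
def HasLevel (E : ℕ → ℕ → ℤ → ℝ) (B U K N n : ℕ) (lam : Fin n → ℕ → ℝ) (y : Fin n → ℕ → ℕ) (h : Fin n → ℕ → ℤ)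
    (b : ℤ) : Prop :=
  ∀ l, ∀ Q : ℕ, (Q : ℝ) ≤ N / Real.log N ^ K → ∀ z : ℕ, z ≤ B * N →
    |weighted E (lam l) (fun q => min z (y l q)) (h l) Q b| ≤ N / Real.log N ^ U

/-- Admissible data: at most `log ^ T N` indices `l`, weights with `|λ_l(q)| ≤ (τ(q) log N) ^ T`, where `τ(q)` is the number of the
divisors, lengths `y_l(q) ≤ B N`, and shifts `h_l(q)` from a set of at most `log ^ T N` integers in `[-B N, B N]`. -/
def Data (B T N n : ℕ) (lam : Fin n → ℕ → ℝ) (y : Fin n → ℕ → ℕ) (h : Fin n → ℕ → ℤ) : Prop :=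
  (n : ℝ) ≤ Real.log N ^ T ∧ (∀ l q, |lam l q| ≤ Real.log N ^ T * (q.divisors.card : ℝ) ^ T) ∧
    (∀ l q, y l q ≤ B * N) ∧
    ∃ H : Finset ℤ, (H.card : ℝ) ≤ Real.log N ^ T ∧ (∀ τ ∈ H, |τ| ≤ B * N) ∧ ∀ l q, h l q ∈ H

/-- The differences of order `r` of `f` on `{1, ..., x}` are all at least `κ`, or all at most `-κ`. Here `fwdDiff 1 f m`
is the difference `f (m + 1) - f m`. -/
def Bent (r x : ℕ) (f : ℕ → ℝ) (κ : ℝ) : Prop :=
  (∀ m, 1 ≤ m → m + r ≤ x → κ ≤ (fwdDiff 1)^[r] f m) ∨ (∀ m, 1 ≤ m → m + r ≤ x → (fwdDiff 1)^[r] f m ≤ -κ)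

lemma pi_eq (y q : ℕ) (b : ℤ) : pi y q b = Pool.Agent.U856.EH.FZ Pool.Agent.U856.EH.pr y q b := by
  unfold pi Pool.Agent.U856.EH.FZ Pool.Agent.U856.EH.pr
  rw [← sum_filter, filter_filter, sum_const, nsmul_eq_mul, mul_one]
  congr 2
  apply filter_congr
  intro n _
  exact and_comm

lemma allE (E : ℕ → ℕ → ℤ → ℝ) (hE : E = Epsi ∨ E = Epi) : Pool.Agent.U856.EH.AllD E := by
  rcases hE with h | h
  · rw [h]
    exact Pool.Agent.U856.EH.allS
  · have h1 : E = Pool.Agent.U856.EH.DP := by
      rw [h]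
      funext y q b
      unfold Epi Pool.Agent.U856.EH.DP
      rw [pi_eq]
      rfl
    rw [h1]
    exact Pool.Agent.U856.EH.allP

open Classical in
/-- Let `r ≥ 2`, `B`, `C`, `T`, `U` and `η > 0` be fixed, and let `E(y; q, b)` be `ψ(y; q, b) - y / φ(q)` or
`π(y; q, b) - li y / φ(q)`. There is a `K` such that for all large `N`, all `x ≥ N ^ (1 / r + η)`, ALL functions `f` with
values in `[-B N, B N]` on `{1, ..., x}` whose differences of order `r` are all at least `N / (x ^ r log ^ C N)`, or all at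
most the negative of this number, and all admissible weights, lengths and shifts (`Data`): for all but at most
`x / log ^ U N` of the `m ≤ x`, ALL the integers `b` with `|b| ≤ B N` and `|b - f m| ≤ log ^ C N` have the level of
distribution `N / log ^ K N` (`HasLevel`). -/
theorem result (r : ℕ) (hr : 2 ≤ r) (B C T U : ℕ) (η : ℝ) (hη : 0 < η) (E : ℕ → ℕ → ℤ → ℝ) (hE : E = Epsi ∨ E = Epi) :
    ∃ K N₀ : ℕ, ∀ N : ℕ, N₀ ≤ N → ∀ x : ℕ, (N : ℝ) ^ (1 / (r : ℝ) + η) ≤ x →
    ∀ f : ℕ → ℝ, (∀ m ∈ Icc 1 x, |f m| ≤ B * N) → Bent r x f (N / ((x : ℝ) ^ r * Real.log N ^ C)) →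
    ∀ (n : ℕ) (lam : Fin n → ℕ → ℝ) (y : Fin n → ℕ → ℕ) (h : Fin n → ℕ → ℤ), Data B T N n lam y h →
    (((Icc 1 x).filter (fun m => ¬ ∀ b : ℤ, |(b : ℝ)| ≤ B * N → |(b : ℝ) - f m| ≤ Real.log N ^ C →
      HasLevel E B U K N n lam y h b)).card : ℝ) ≤ x / Real.log N ^ U := by
  obtain ⟨p, D, V, n1, hp, h1⟩ := Pool.Agent.U828.KD.nearOne r hr B C U η hη
  obtain ⟨K, n2, h2⟩ := Pool.Agent.U856.EH.few_fam E (allE E hE) p B D T (U + V) T
  obtain ⟨n3, hn3⟩ := Pool.Agent.K7.H49.SM.ev_log 1
  refine ⟨K, max n1 (max n2 n3), fun N hN x hx f hf hb n lam y h hdata => ?_⟩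
  have hN1 : n1 ≤ N := le_trans (le_max_left _ _) hN
  have hN2 : n2 ≤ N := le_trans (le_trans (le_max_left _ _) (le_max_right _ _)) hN
  have hL := hn3 N (le_trans (le_trans (le_max_right _ _) (le_max_right _ _)) hN)
  have hL1 : 1 ≤ Real.log (N : ℝ) := by exact_mod_cast hL
  obtain ⟨hn, hlam, hy, H, hH1, hH2, hh⟩ := hdata
  have hU : ∀ W : ℕ, W ≤ U + V → ∀ z : ℝ, 0 ≤ z → z / Real.log N ^ (U + V) ≤ z / Real.log N ^ W := by
    intro W hW z hz
    apply div_le_div_of_nonneg_left hz (by positivity)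
    exact pow_le_pow_right₀ hL1 hW
  apply h1 N hN1 (fun b => HasLevel E B U K N n lam y h b) _ x hx f hf hb _ (filter_subset _ _)
  · intro m hm
    have h3 := (mem_filter.1 hm).2
    push Not at h3
    exact h3
  · intro x' s hs hen S hS hSb
    have h3 := h2 N hN2 x' s hs hen H hH1 hH2 n hn lam y h hlam hy hh
    refine le_trans (le_trans ?_ h3) (hU V (by omega) _ (Nat.cast_nonneg _))
    rw [Nat.cast_le]
    apply card_le_card
    intro m hm
    rw [mem_filter]
    refine ⟨hS hm, fun hcon => hSb m hm fun l Q hQ z hz => ?_⟩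
    exact (hcon l Q hQ z hz).trans (hU U (by omega) _ (Nat.cast_nonneg _))

end Pool.Agent.Results.MP_00e23e_nt.HigherConvexResidues
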