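import Mathlib
import Pool.Agent.U365.LM.G

/-!
# Level of distribution `43/84` for individual divisors `q ≤ x^κ` of the moduli, every `κ < 1/3`

For every *single* `q ≤ x^κ` which is not a multiple of one of a few exceptional conductors, and for
every residue class `l` prime to `q`, the primes are equidistributed in the classes `l` modulo `q t` on
average over the products `t` of primes in `(x^ε, x^η]` with `q t ≤ x^θ`, every `θ < 43/84`:
with a power saving (at most `x^ν` exceptional conductors up to `x^(1/20)`), and with a saving of an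
arbitrary power of the logarithm (at most `(log x)^C` exceptional conductors up to `x^(1/20)`, each of
them larger than `(log x)^A`).

The proof: the starting files `Pool.Agent.R503.N` compare the primes in the class `l` modulo `q t` with
the primes in the class `l` modulo `q`, with a power saving for each single `q`; the files
`Pool.Agent.U365.LM` show, with the large sieve on short blocks of conductors and many heights, that
all `q ≤ x^(1/3)` without an exceptional conductor have equidistributed primes at all heights `y ≤ x`.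
-/

set_option autoImplicit false

namespace Pool.Agent.Results.MP_00e23e_nt.IndividualDivisor

open Finset

/-- the number of primes `p ≤ y` with `p ≡ l (mod d)` -/
noncomputable def primePi (y d : ℕ) (l : ℤ) : ℕ :=
  ((Icc 1 y).filter (fun p : ℕ => p.Prime ∧ (p : ℤ) ≡ l [ZMOD d])).card

/-- the number of primes `p ≤ y` -/
noncomputable def primes (y : ℕ) : ℕ := ((Icc 1 y).filter (fun p : ℕ => p.Prime)).card

/-- `E(y; d, l) = π(y; d, l) - li(y)/φ(d)` -/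
noncomputable def E (y d : ℕ) (l : ℤ) : ℝ :=
  (primePi y d l : ℝ) - (∫ t in (2 : ℝ)..y, 1 / Real.log t) / (Nat.totient d : ℝ)

open Classical in
/-- the positive integers `t` with `q t ≤ x^θ`, `q t` squarefree, `(l, t) = 1`, all of whose prime
factors lie in `(x^ε, x^η]` -/
noncomputable def right (x : ℕ) (θ ε η : ℝ) (q : ℕ) (l : ℤ) : Finset ℕ :=
  (Icc 1 x).filter (fun t : ℕ => ((q * t : ℕ) : ℝ) ≤ (x : ℝ) ^ θ ∧ Squarefree (q * t) ∧
    Int.gcd l t = 1 ∧ ∀ p : ℕ, p.Prime → p ∣ t → (x : ℝ) ^ ε < p ∧ (p : ℝ) ≤ (x : ℝ) ^ η)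

/-- a finite set `P` of integers `f ≥ 2` with at most `K (1 + z x^(-1/20))` elements up to `z`, for all
`z ≥ 1` -/
def Few (x : ℕ) (K : ℝ) (P : Finset ℕ) : Prop :=
  (∀ f ∈ P, 2 ≤ f) ∧
  ∀ z : ℕ, 1 ≤ z → ((P.filter (fun f => f ≤ z)).card : ℝ) ≤ K * (1 + z * (x : ℝ) ^ (-(1 / 20) : ℝ))

theorem primePi_eq (x d : ℕ) (l : ℤ) : (primePi x d l : ℝ) = Pool.Agent.R503.N.pn x d l := by
  unfold primePi Pool.Agent.R503.N.pn
  congr 2
  ext p
  rw [mem_filter, mem_filter, Int.modEq_iff_dvd, dvd_sub_comm]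

theorem mo {x q : ℕ} {θ ε η : ℝ} {l : ℤ} : ∀ t ∈ right x θ ε η q l, Pool.Agent.R503.N.Mo x q l θ ε η t := by
  intro t ht
  simp only [right, mem_filter] at ht
  obtain ⟨_, h2, h3, h4, h5⟩ := ht
  refine ⟨h3, Int.isCoprime_iff_gcd_eq_one.2 h4, h5, ?_⟩
  push_cast at h2
  exact h2

theorem right_mono {x q : ℕ} {θ θ' ε η : ℝ} {l : ℤ} (hx : 1 ≤ x) (h : θ ≤ θ') :
    right x θ ε η q l ⊆ right x θ' ε η q l := by
  intro t ht
  have hx1 : (1 : ℝ) ≤ x := by exact_mod_cast hx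
  simp only [right, mem_filter] at ht ⊢
  exact ⟨ht.1, ht.2.1.trans (Real.rpow_le_rpow_of_exponent_le hx1 h), ht.2.2⟩

/-- **Level `43/84` for individual divisors `q ≤ x^κ`, `κ < 1/3`, of the moduli.** -/
theorem result : ∀ θ κ : ℝ, θ < 43 / 84 → κ < 1 / 3 → ∃ η : ℝ, 0 < η ∧ ∀ ε : ℝ, 0 < ε →
    (∀ ν : ℝ, 0 < ν → ∃ δ : ℝ, 0 < δ ∧ ∀ U : ℕ, ∃ x₀ : ℕ, ∀ x : ℕ, x₀ ≤ x →
      ∃ P : Finset ℕ, Few x ((x : ℝ) ^ ν) P ∧
      ∀ q : ℕ, 0 < q → (q : ℝ) ≤ (x : ℝ) ^ κ → (∀ f ∈ P, ¬ f ∣ q) → ∀ l : ℤ, Int.gcd l q = 1 →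
      ∀ y : ℕ → ℕ, (∀ t, 2 ≤ y t ∧ y t ≤ x) →
      ∑ t ∈ right x θ ε η q l, |(primePi (y t) (q * t) l : ℝ) - primes (y t) / (Nat.totient (q * t) : ℝ)| ≤
        (x : ℝ) ^ (1 - δ) / q ∧
      ∑ t ∈ right x θ ε η q l, |E (y t) (q * t) l| ≤ x / (q * Real.log x ^ U)) ∧
    (∀ U B : ℕ, ∃ C : ℕ, ∀ A : ℕ, ∃ x₀ : ℕ, ∀ x : ℕ, x₀ ≤ x →
      ∃ P : Finset ℕ, Few x (Real.log x ^ C) P ∧ (∀ f ∈ P, Real.log x ^ A < f) ∧
      ∀ q : ℕ, 0 < q → (q : ℝ) ≤ (x : ℝ) ^ κ → (q.divisors.card : ℝ) ≤ Real.log x ^ B →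
      (∀ f ∈ P, ¬ f ∣ q) → ∀ l : ℤ, Int.gcd l q = 1 →
      ∀ y : ℕ → ℕ, (∀ t, 2 ≤ y t ∧ y t ≤ x) →
      ∑ t ∈ right x θ ε η q l, |E (y t) (q * t) l| ≤ x / (q * Real.log x ^ U)) := by
  intro θ κ hθ hκ
  have hθ' : max θ (1 / 2) < 43 / 84 := max_lt hθ (by norm_num)
  have hκ' : max κ 0 < 1 / 3 := max_lt hκ (by norm_num)
  obtain ⟨η1, hη1, hp⟩ := Pool.Agent.U365.LM.indiv_power (max θ (1 / 2)) (max κ 0) (le_max_right _ _) hθ'
    (le_max_right _ _) hκ'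
  obtain ⟨η2, hη2, hl⟩ := Pool.Agent.U365.LM.indiv_log (max θ (1 / 2)) (max κ 0) (le_max_right _ _) hθ'
    (le_max_right _ _) hκ'
  have hmono : ∀ {x q : ℕ} {ε η η' : ℝ} {l : ℤ}, 1 ≤ x → η ≤ η' → ∀ t ∈ right x θ ε η q l,
      Pool.Agent.R503.N.Mo x q l (max θ (1 / 2)) ε η' t := by
    intro x q ε η η' l hx h t ht
    have hx1 : (1 : ℝ) ≤ x := by exact_mod_cast hx
    have h1 := mo t (right_mono hx (le_max_left θ (1 / 2)) ht)
    exact ⟨h1.1, h1.2.1, fun p hp hpt => ⟨(h1.2.2.1 p hp hpt).1, (h1.2.2.1 p hp hpt).2.trans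
      (Real.rpow_le_rpow_of_exponent_le hx1 h)⟩, h1.2.2.2⟩
  have hκx : ∀ {x q : ℕ}, 1 ≤ x → (q : ℝ) ≤ (x : ℝ) ^ κ → (q : ℝ) ≤ (x : ℝ) ^ (max κ 0) := by
    intro x q hx h
    have hx1 : (1 : ℝ) ≤ x := by exact_mod_cast hx
    exact h.trans (Real.rpow_le_rpow_of_exponent_le hx1 (le_max_left _ _))
  have hqx : ∀ {x q : ℕ}, 1 ≤ x → (q : ℝ) ≤ (x : ℝ) ^ κ → q ≤ x := by
    intro x q hx h
    have hx1 : (1 : ℝ) ≤ x := by exact_mod_cast hx
    have h2 : (q : ℝ) ≤ x := by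
      refine h.trans ?_
      calc (x : ℝ) ^ κ ≤ (x : ℝ) ^ (1 : ℝ) := Real.rpow_le_rpow_of_exponent_le hx1 (by linarith)
        _ = x := Real.rpow_one _
    exact_mod_cast h2
  have hsum : ∀ (x q : ℕ) (θ ε η : ℝ) (l : ℤ) (y : ℕ → ℕ),
      ∑ t ∈ right x θ ε η q l, |E (y t) (q * t) l| = ∑ t ∈ right x θ ε η q l,
        |Pool.Agent.R503.N.pn (y t) (q * t) l - Pool.Agent.R503.N.lin (y t) / (Nat.totient (q * t) : ℝ)| := by
    intro x q θ ε η l y
    refine sum_congr rfl fun t _ => ?_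
    unfold E
    rw [primePi_eq]
    rfl
  refine ⟨min η1 η2, lt_min hη1 hη2, fun ε hε => ⟨fun ν hν => ?_, fun U B => ?_⟩⟩
  · obtain ⟨δ, hδ, hev⟩ := hp ε hε ν hν
    refine ⟨δ, hδ, fun U => ?_⟩
    have hlog : ∀ᶠ x : ℕ in Filter.atTop, 2 * Real.log x ^ U ≤ (x : ℝ) ^ δ :=
      tendsto_natCast_atTop_atTop.eventually (Pool.Agent.Y61.Z.ev_log_rpow 2 U hδ)
    obtain ⟨x₀, hx₀⟩ := Filter.eventually_atTop.1 ((hev.and hlog).and (Pool.Agent.U365.LM.li_q U))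
    refine ⟨max x₀ 3, fun x hx => ?_⟩
    have hx3 : 3 ≤ x := (le_max_right _ _).trans hx
    have hx1 : 1 ≤ x := by omega
    obtain ⟨⟨⟨P, hP2, hPc, h⟩, hlg⟩, hli⟩ := hx₀ x ((le_max_left _ _).trans hx)
    refine ⟨P, ⟨hP2, hPc⟩, fun q hq hqκ hqP l hl y hy => ?_⟩
    have hM : ∀ t ∈ right x θ ε (min η1 η2) q l, Pool.Agent.R503.N.Mo x q l (max θ (1 / 2)) ε η1 t :=
      hmono hx1 (min_le_left _ _)
    have h1 := h q hq (hκx hx1 hqκ) hqP l (Int.isCoprime_iff_gcd_eq_one.2 hl)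
      (right x θ ε (min η1 η2) q l) hM y (fun t => (hy t).2)
    refine ⟨?_, ?_⟩
    · refine le_trans (le_of_eq ?_) h1
      refine sum_congr rfl fun t _ => ?_
      rw [primePi_eq]
      rfl
    · rw [hsum]
      refine (hli q hq (hqx hx1 hqκ) y hy _ l _ (Pool.Agent.U365.LM.Mo_sub hx1 hq (by linarith) hM)
        (fun t ht => (Nat.squarefree_mul_iff.1 (hM t ht).1).1) h1).trans ?_
      have hx0 : (0 : ℝ) < x := by exact_mod_cast (by omega : 0 < x)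
      have hqr : (0 : ℝ) < q := by exact_mod_cast hq
      have hL := Pool.Agent.R503.N.log_ge1 hx3
      have hL0 : 0 < Real.log x := by linarith
      have e : (x : ℝ) ^ (1 - δ) = x / (x : ℝ) ^ δ := by rw [Real.rpow_sub hx0, Real.rpow_one]
      have i1 : (x : ℝ) ^ (1 - δ) / q ≤ (1 / 2) * (x / (q * Real.log x ^ U)) := by
        rw [e]
        calc x / (x : ℝ) ^ δ / q ≤ x / (2 * Real.log x ^ U) / q := by gcongr
          _ = _ := by field_simp
      linarith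
  · obtain ⟨C, hC⟩ := hl ε hε (U + 1) B
    refine ⟨C, fun A => ?_⟩
    have hlog : ∀ᶠ x : ℕ in Filter.atTop, 2 ≤ Real.log x :=
      (Real.tendsto_log_atTop.comp tendsto_natCast_atTop_atTop).eventually (Filter.eventually_ge_atTop _)
    obtain ⟨x₀, hx₀⟩ := Filter.eventually_atTop.1 (((hC A).and (Pool.Agent.U365.LM.li_q U)).and hlog)
    refine ⟨max x₀ 3, fun x hx => ?_⟩
    have hx3 : 3 ≤ x := (le_max_right _ _).trans hx
    have hx1 : 1 ≤ x := by omega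
    obtain ⟨⟨⟨P, hP2, hPc, h⟩, hli⟩, hL2⟩ := hx₀ x ((le_max_left _ _).trans hx)
    refine ⟨P, ⟨fun f hf => (hP2 f hf).1, hPc⟩, fun f hf => (hP2 f hf).2, fun q hq hqκ hqB hqP l hl y hy => ?_⟩
    have hM : ∀ t ∈ right x θ ε (min η1 η2) q l, Pool.Agent.R503.N.Mo x q l (max θ (1 / 2)) ε η2 t :=
      hmono hx1 (min_le_right _ _)
    have h1 := h q hq (hκx hx1 hqκ) hqB hqP l (Int.isCoprime_iff_gcd_eq_one.2 hl)
      (right x θ ε (min η1 η2) q l) hM y (fun t => (hy t).2)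
    rw [hsum]
    refine (hli q hq (hqx hx1 hqκ) y hy _ l _ (Pool.Agent.U365.LM.Mo_sub hx1 hq (by linarith) hM)
      (fun t ht => (Nat.squarefree_mul_iff.1 (hM t ht).1).1) h1).trans ?_
    have hqr : (0 : ℝ) < q := by exact_mod_cast hq
    have hx0 : (0 : ℝ) < x := by exact_mod_cast (by omega : 0 < x)
    have hL0 : 0 < Real.log x := by linarith
    have i1 : (x : ℝ) / (q * Real.log x ^ (U + 1)) ≤ (1 / 2) * (x / (q * Real.log x ^ U)) := by
      calc (x : ℝ) / (q * Real.log x ^ (U + 1)) = (1 / Real.log x) * (x / (q * Real.log x ^ U)) := by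
            rw [pow_succ]; field_simp
        _ ≤ (1 / 2) * (x / (q * Real.log x ^ U)) := by gcongr
    linarith

end Pool.Agent.Results.MP_00e23e_nt.IndividualDivisor
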