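import Pool.Agent.U856.EH.M16
import Pool.Agent.U856.EH.M17

/-!
# The original level of Elliott and Halberstam for almost all residues from thin families

The exponential sum bounds for the primes, the bilinear inequality for families of nearly minimal additive
energy, the moments of Weyl sums and the sieve estimates are from the starting files (`Pool.Agent.H373R2`,
`Pool.Agent.H560R3`, `Pool.Agent.W93`, `Pool.Agent.TH212`, `Pool.Agent.TH646`, `Pool.Agent.TH823`).
From Mathlib: `ArithmeticFunction.vonMangoldt`: the function `Λ`; `Nat.totient`: Euler's function `φ`;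
`q.divisors.card`: the number `τ(q)` of the divisors; `Int.gcd`: the greatest common divisor;
`Polynomial ℤ`: the polynomials with integer coefficients; `f.eval m`: the value at `m`.
-/

set_option autoImplicit false

namespace Pool.Agent.Results.MP_00e23e_nt.OriginalLevel

open Finset

/-- The additive energy of order `p` of the family `s 1, ..., s x`: the number of the solutions of
`s (v 1) + ... + s (v p) = s (w 1) + ... + s (w p)` with all `v i`, `w i` in `{1, ..., x}`. -/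
def energy (p x : ℕ) (s : ℕ → ℤ) : ℕ :=
  (((Fintype.piFinset fun _ : Fin p => Icc 1 x) ×ˢ (Fintype.piFinset fun _ : Fin p => Icc 1 x)).filter
    (fun q => ∑ i, s (q.1 i) = ∑ i, s (q.2 i))).card

open Classical in
/-- The number of the `m` in `{1, ..., x}` with the property `P`. -/
noncomputable def num (x : ℕ) (P : ℕ → Prop) : ℝ := (((Icc 1 x).filter P).card : ℝ)

/-- `ψ(y; q, b)`: the sum of `Λ(n)` over the positive integers `n ≤ y` with `n ≡ b (mod q)`. -/
noncomputable def psi (y q : ℕ) (b : ℤ) : ℝ :=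
  ∑ n ∈ (Icc 1 y).filter (fun n : ℕ => (n : ℤ) ≡ b [ZMOD q]), ArithmeticFunction.vonMangoldt n

/-- `π(y; q, b)`: the number of the primes `n ≤ y` with `n ≡ b (mod q)`. -/
noncomputable def pi (y q : ℕ) (b : ℤ) : ℝ :=
  (((Icc 1 y).filter (fun n : ℕ => n.Prime ∧ (n : ℤ) ≡ b [ZMOD q])).card : ℝ)

/-- `li y`: the integral of `1 / log t` over `[2, y]`; it is `0` for `y < 2`. -/
noncomputable def li (y : ℕ) : ℝ := if 2 ≤ y then ∫ t in (2 : ℝ)..y, 1 / Real.log t else 0

/-- The first error term: `ψ(y; q, b) - y / φ(q)`. -/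
noncomputable def Epsi (y q : ℕ) (b : ℤ) : ℝ := psi y q b - (y : ℝ) / Nat.totient q

/-- The second error term, the one of the problem: `π(y; q, b) - li y / φ(q)`. -/
noncomputable def Epi (y q : ℕ) (b : ℤ) : ℝ := pi y q b - li y / Nat.totient q

/-- The sum of `λ(q) E(y(q); q, b + h(q))` over the `q ≤ Q` for which `b + h(q)` and `q` are coprime. -/
noncomputable def weighted (E : ℕ → ℕ → ℤ → ℝ) (lam : ℕ → ℝ) (y : ℕ → ℕ) (h : ℕ → ℤ) (Q : ℕ) (b : ℤ) : ℝ :=
  ∑ q ∈ (Icc 1 Q).filter (fun q : ℕ => Int.gcd (b + h q) q = 1), lam q * E (y q) q (b + h q)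

/-- The level of Elliott and Halberstam: `N / log ^ K N`. -/
noncomputable def level (K N : ℕ) : ℝ := N / Real.log N ^ K

/-- Almost all the `s m` have the level of distribution `N / log ^ K N`. The shifts `h_l(q)` are from a set `H` of
at most `log ^ T N` integers in `[-B N, B N]`, there are at most `log ^ T N` indices `l`, the weights satisfy
`|λ_l(q)| ≤ (τ(q) log N) ^ T` and the lengths satisfy `y_l(q) ≤ B N`; everything else is arbitrary. Then, for all the
`m ≤ x` with at most `x / log ^ U N` exceptions, `weighted` has absolute value at most `N / log ^ U N` for all `l`,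
all `Q ≤ N / log ^ K N` and all the truncations `min z y_l(q)` of the lengths. -/
def Almost (E : ℕ → ℕ → ℤ → ℝ) (B T U K N x : ℕ) (s : ℕ → ℤ) : Prop :=
  ∀ H : Finset ℤ, (H.card : ℝ) ≤ Real.log N ^ T → (∀ τ ∈ H, |τ| ≤ B * N) →
    ∀ n : ℕ, (n : ℝ) ≤ Real.log N ^ T → ∀ (lam : Fin n → ℕ → ℝ) (y : Fin n → ℕ → ℕ) (h : Fin n → ℕ → ℤ),
      (∀ l q, |lam l q| ≤ Real.log N ^ T * (q.divisors.card : ℝ) ^ T) → (∀ l q, y l q ≤ B * N) → (∀ l q, h l q ∈ H) →
      num x (fun m => ¬ ∀ l, ∀ Q : ℕ, (Q : ℝ) ≤ level K N → ∀ z : ℕ, z ≤ B * N →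
        |weighted E (lam l) (fun q => min z (y l q)) (h l) Q (s m)| ≤ N / Real.log N ^ U) ≤ x / Real.log N ^ U

/-- The dual form, with absolute values for every modulus: for arbitrary coefficients `c(m)` with
`|c(m)| ≤ log ^ T N`, the sum over all the `q ≤ Q` of `τ(q) ^ T` times the absolute value of the sum of
`c(m) E(y(q); q, s m + h(q))` over the `m ≤ x` with `s m + h(q)` coprime to `q` is at most `N x / log ^ U N`. -/
def Dual (E : ℕ → ℕ → ℤ → ℝ) (B T U K N x : ℕ) (s : ℕ → ℤ) : Prop :=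
  ∀ H : Finset ℤ, (H.card : ℝ) ≤ Real.log N ^ T → (∀ τ ∈ H, |τ| ≤ B * N) →
    ∀ c : ℕ → ℝ, (∀ m, |c m| ≤ Real.log N ^ T) → ∀ Q : ℕ, (Q : ℝ) ≤ level K N →
      ∀ y : ℕ → ℕ, (∀ q, y q ≤ B * N) → ∀ h : ℕ → ℤ, (∀ q, h q ∈ H) →
      ∑ q ∈ Icc 1 Q, (q.divisors.card : ℝ) ^ T * |∑ m ∈ (Icc 1 x).filter (fun m : ℕ => Int.gcd (s m + h q) q = 1),
        c m * E (y q) q (s m + h q)| ≤ N * x / Real.log N ^ U

lemma num_mono {x : ℕ} {P Q : ℕ → Prop} (h : ∀ m ∈ Icc 1 x, P m → Q m) : num x P ≤ num x Q := by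
  classical
  unfold num
  apply Nat.cast_le.2
  apply card_le_card
  intro m hm
  rw [mem_filter] at hm ⊢
  exact ⟨hm.1, h m hm.1 hm.2⟩

lemma pi_eq (y q : ℕ) (b : ℤ) : pi y q b = Pool.Agent.U856.EH.FZ Pool.Agent.U856.EH.pr y q b := by
  unfold pi Pool.Agent.U856.EH.FZ Pool.Agent.U856.EH.pr
  rw [← sum_filter, filter_filter, sum_const, nsmul_eq_mul, mul_one]
  congr 2
  apply filter_congr
  intro n _
  exact and_comm

lemma allE (E : ℕ → ℕ → ℤ → ℝ) (hE : E = Epsi ∨ E = Epi) : Pool.Agent.U856.EH.AllD E := by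
  rcases hE with h | h
  · rw [h]
    exact Pool.Agent.U856.EH.allS
  · have h1 : E = Pool.Agent.U856.EH.DP := by
      rw [h]
      funext y q b
      unfold Epi Pool.Agent.U856.EH.DP
      rw [pi_eq]
      rfl
    rw [h1]
    exact Pool.Agent.U856.EH.allP

lemma general (E : ℕ → ℕ → ℤ → ℝ) (hE : E = Epsi ∨ E = Epi) (B C T U p : ℕ) : ∃ K N₀ : ℕ, ∀ N : ℕ, N₀ ≤ N →
    ∀ (x : ℕ) (s : ℕ → ℤ), (∀ m ∈ Icc 1 x, |s m| ≤ B * N) →
    (energy p x s : ℝ) * N ≤ Real.log N ^ C * (x : ℝ) ^ (2 * p) → Almost E B T U K N x s ∧ Dual E B T U K N x s := by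
  obtain ⟨K1, n1, h1⟩ := Pool.Agent.U856.EH.few_fam E (allE E hE) p B C T U T
  obtain ⟨K2, n2, h2⟩ := Pool.Agent.U856.EH.dual_fam E (allE E hE) p B C T U T
  obtain ⟨n3, h3⟩ := Pool.Agent.TH212.EH.large 1 (n1 + n2)
  refine ⟨K1 + K2, n3, fun N hN x s hs hen => ?_⟩
  obtain ⟨hN1, _, hL⟩ := h3 N hN
  constructor
  · intro H hH1 hH2 n hn lam y h hlam hy hh
    refine le_trans (le_trans (num_mono (Q := fun m => ¬ ∀ l, ∀ Q : ℕ, (Q : ℝ) ≤ Pool.Agent.U856.EH.level K1 N →
      ∀ z : ℕ, z ≤ B * N → |weighted E (lam l) (fun q => min z (y l q)) (h l) Q (s m)| ≤ N / Real.log N ^ U) ?_) (le_of_eq ?_))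
      (h1 N (by omega) x s hs hen H hH1 hH2 n hn lam y h hlam hy hh)
    · intro m _ h4 hcon
      exact h4 fun l Q hQ z hz => hcon l Q (hQ.trans (Pool.Agent.U856.EH.level_anti K1 (K1 + K2) N (by omega) hL)) z hz
    · unfold num
      congr!
  · intro H hH1 hH2 c hc Q hQ y hy h hh
    exact h2 N (by omega) x s hs hen H hH1 hH2 c hc Q (hQ.trans (Pool.Agent.U856.EH.level_anti K2 (K1 + K2) N (by omega) hL))
      y hy h hh

lemma almost_mono (E : ℕ → ℕ → ℤ → ℝ) (B B' T U K N x : ℕ) (s : ℕ → ℤ) (hB : B ≤ B') (h : Almost E B' T U K N x s) :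
    Almost E B T U K N x s := by
  have hBN : B * N ≤ B' * N := Nat.mul_le_mul_right _ hB
  intro H hH1 hH2 n hn lam y h' hlam hy hh
  refine le_trans ?_ (h H hH1 (fun τ hτ => (hH2 τ hτ).trans (by exact_mod_cast hBN)) n hn lam y h' hlam
    (fun l q => (hy l q).trans hBN) hh)
  apply num_mono
  intro m _ h4 hcon
  exact h4 fun l Q hQ z hz => hcon l Q hQ z (hz.trans hBN)

lemma dual_mono (E : ℕ → ℕ → ℤ → ℝ) (B B' T U K N x : ℕ) (s : ℕ → ℤ) (hB : B ≤ B') (h : Dual E B' T U K N x s) :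
    Dual E B T U K N x s := by
  have hBN : B * N ≤ B' * N := Nat.mul_le_mul_right _ hB
  intro H hH1 hH2 c hc Q hQ y hy h' hh
  exact h H hH1 (fun τ hτ => (hH2 τ hτ).trans (by exact_mod_cast hBN)) c hc Q hQ y (fun q => (hy q).trans hBN) h' hh

/-- Let `B`, `C`, `T`, `U` be fixed, and let `E(y; q, b)` be `ψ(y; q, b) - y / φ(q)` or `π(y; q, b) - li y / φ(q)`.

* For every `p` there is a `K` such that for all large `N` the following holds. Let `s 1, ..., s x` be an
  arbitrary family of integers in `[-B N, B N]` with an additive energy of order `p` of at most `log ^ C N`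
  times the minimal possible size `x ^ (2 p) / N`. Then almost all the `s m` have the level of distribution
  `N / log ^ K N`, in the sense of `Almost` and in the sense of `Dual`.
* In particular this holds for the residues `c + f m`, `m ≤ x`, where `f` is a fixed nonconstant
  polynomial with integer coefficients, of degree `d`, `N / log ^ C N ≤ x ^ d ≤ B N` and `|c| ≤ B N`.
* The exponent `K` has to grow with `U`, even for the family `s m = m`, for `ψ`, for the lengths `y(q) = z` and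
  without shifts: for all large `Q` and all `N ≥ Q` there are weights with `0 ≤ λ(q) ≤ log q` such that for all the
  positive integers `m ≤ Q / 16` there is a `z ≤ 3 N` for which `weighted` has absolute value at least `Q / 2100`. -/
theorem result : (∀ (B C T U : ℕ) (E : ℕ → ℕ → ℤ → ℝ), E = Epsi ∨ E = Epi →
    (∀ p : ℕ, ∃ K N₀ : ℕ, ∀ N : ℕ, N₀ ≤ N → ∀ (x : ℕ) (s : ℕ → ℤ), (∀ m ∈ Icc 1 x, |s m| ≤ B * N) →
      (energy p x s : ℝ) * N ≤ Real.log N ^ C * (x : ℝ) ^ (2 * p) →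
        Almost E B T U K N x s ∧ Dual E B T U K N x s) ∧
    (∀ f : Polynomial ℤ, 1 ≤ f.natDegree → ∃ K N₀ : ℕ, ∀ N : ℕ, N₀ ≤ N → ∀ x : ℕ,
      x ^ f.natDegree ≤ B * N → (N : ℝ) ≤ Real.log N ^ C * (x : ℝ) ^ f.natDegree → ∀ c : ℤ, |c| ≤ B * N →
        Almost E B T U K N x (fun m => c + f.eval (m : ℤ)) ∧ Dual E B T U K N x (fun m => c + f.eval (m : ℤ)))) ∧
    (∃ Q₀ : ℕ, ∀ Q : ℕ, Q₀ ≤ Q → ∀ N : ℕ, Q ≤ N → ∃ lam : ℕ → ℝ, (∀ q, 0 ≤ lam q ∧ lam q ≤ Real.log q) ∧
      ∀ m : ℕ, 1 ≤ m → 16 * m ≤ Q → ∃ z : ℕ, z ≤ 3 * N ∧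
        (Q : ℝ) / 2100 ≤ |weighted Epsi lam (fun _ => z) (fun _ => 0) Q (m : ℤ)|) := by
  refine ⟨fun B C T U E hE => ⟨fun p => general E hE B C T U p, fun f hd => ?_⟩, Pool.Agent.U856.EH.lower⟩
  obtain ⟨p, B', hB', N1, h1⟩ := Pool.Agent.TH823.Fam.poly_family f hd B C
  obtain ⟨K, N2, h2⟩ := general E hE B' (C + 1) T U p
  refine ⟨K, N1 + N2, fun N hN x hx1 hx2 c hc => ?_⟩
  obtain ⟨h3, h4⟩ := h1 N (by omega) x hx1 hx2 c hc
  obtain ⟨h5, h6⟩ := h2 N (by omega) x (fun m => c + f.eval (m : ℤ)) h3 h4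
  exact ⟨almost_mono E B B' T U K N x _ hB' h5, dual_mono E B B' T U K N x _ hB' h6⟩

end Pool.Agent.Results.MP_00e23e_nt.OriginalLevel
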