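import Pool.Agent.U108.DP.E1
import Pool.Agent.U856.EH.M11
import Pool.Agent.U856.EH.M15

/-!
# The original level of Elliott and Halberstam for almost all residues which are values of polynomials in several
# variables at integers with restricted digits

Let `F` be any polynomial of total degree `d ≥ 2` with integer coefficients, in any number of variables (a power, a
quadratic form, a norm form, a discriminant, a determinant of any order ...), and let the variables run through the
integers `< b ^ k` whose digits in base `b` are restricted to arbitrary sets of at least two digits. For almost all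
choices of the variables, the primes up to `N = b ^ (d k)` have the level of distribution `N / log ^ K N` in the residue
classes of `F(n)`, with arbitrary weights on the moduli (fixed before the residue), and lengths and shifts which may depend
on the modulus.

Definitions used:
* from `Pool.Agent.TH872.GQ` (starting files): `S b E k`: the integers `0 ≤ n < b ^ k` whose `i`-th digit in base `b` lies
  in `E i`, for all `i < k`;
* from `Pool.Agent.U108.DP`: `Bo b k D`: the tuples `n` of natural numbers with `n j ∈ S b (D j) k` for all `j`;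
  `val F n`: the value of the polynomial `F` at the tuple `n`.

Method: the energy theorem `Pool.Agent.U108.DP.poly_energy` (a multilinear inequality of Weyl type for disjoint windows of
digits shows that the values have an additive energy of high order which is minimal up to a constant) and the theorem
of helper856 on families of nearly minimal energy (`Pool.Agent.U856.EH.few`, `dual`).
-/

set_option autoImplicit false

namespace Pool.Agent.Results.MP_00e23e_nt.PolynomialsRestrictedDigits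

open Finset Pool.Agent.U108.DP
open Pool.Agent.TH212.EH (En)

/-- `ψ(y; q, b)`: the sum of `Λ(n)` over the positive integers `n ≤ y` with `n ≡ b (mod q)`. -/
noncomputable def psi (y q : ℕ) (b : ℤ) : ℝ :=
  ∑ n ∈ (Icc 1 y).filter (fun n : ℕ => (n : ℤ) ≡ b [ZMOD q]), ArithmeticFunction.vonMangoldt n

/-- `π(y; q, b)`: the number of the primes `n ≤ y` with `n ≡ b (mod q)`. -/
noncomputable def pi (y q : ℕ) (b : ℤ) : ℝ :=
  (((Icc 1 y).filter (fun n : ℕ => n.Prime ∧ (n : ℤ) ≡ b [ZMOD q])).card : ℝ)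

/-- `li y`: the integral of `1 / log t` over `[2, y]`; it is `0` for `y < 2`. -/
noncomputable def li (y : ℕ) : ℝ := if 2 ≤ y then ∫ t in (2 : ℝ)..y, 1 / Real.log t else 0

/-- The first error term: `ψ(y; q, b) - y / φ(q)`. -/
noncomputable def Epsi (y q : ℕ) (b : ℤ) : ℝ := psi y q b - (y : ℝ) / Nat.totient q

/-- The second error term, the one of the problem: `π(y; q, b) - li y / φ(q)`. -/
noncomputable def Epi (y q : ℕ) (b : ℤ) : ℝ := pi y q b - li y / Nat.totient q

/-- The sum of `λ(q) E(y(q); q, a + h(q))` over the `q ≤ Q` for which `a + h(q)` and `q` are coprime. -/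
noncomputable def weighted (E : ℕ → ℕ → ℤ → ℝ) (lam : ℕ → ℝ) (y : ℕ → ℕ) (h : ℕ → ℤ) (Q : ℕ) (a : ℤ) : ℝ :=
  ∑ q ∈ (Icc 1 Q).filter (fun q : ℕ => Int.gcd (a + h q) q = 1), lam q * E (y q) q (a + h q)

/-- The level of Elliott and Halberstam: `N / log ^ K N`. -/
noncomputable def level (K N : ℕ) : ℝ := N / Real.log N ^ K

open Classical in
/-- Almost all the members of the finite family `v` have the level of distribution `N / log ^ K N`. The shifts `h_l(q)`
are from a set `H` of at most `log ^ T N` integers in `[-B N, B N]`, there are at most `log ^ T N` indices `l`, the weights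
satisfy `|λ_l(q)| ≤ (τ(q) log N) ^ T` and the lengths satisfy `y_l(q) ≤ B N`; everything else is arbitrary. Then, for all
the `i` with at most `#ι / log ^ U N` exceptions, `weighted` (at `a = v i`) has absolute value at most `N / log ^ U N` for
all `l`, all `Q ≤ N / log ^ K N` and all the truncations `min z y_l(q)` of the lengths. -/
def Almost (E : ℕ → ℕ → ℤ → ℝ) (B T U K N : ℕ) {ι : Type} [Fintype ι] (v : ι → ℤ) : Prop :=
  ∀ H : Finset ℤ, (H.card : ℝ) ≤ Real.log N ^ T → (∀ τ ∈ H, |τ| ≤ B * N) →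
    ∀ n : ℕ, (n : ℝ) ≤ Real.log N ^ T → ∀ (lam : Fin n → ℕ → ℝ) (y : Fin n → ℕ → ℕ) (h : Fin n → ℕ → ℤ),
      (∀ l q, |lam l q| ≤ Real.log N ^ T * (q.divisors.card : ℝ) ^ T) → (∀ l q, y l q ≤ B * N) → (∀ l q, h l q ∈ H) →
      ((univ.filter (fun i : ι => ¬ ∀ l, ∀ Q : ℕ, (Q : ℝ) ≤ level K N → ∀ z : ℕ, z ≤ B * N →
        |weighted E (lam l) (fun q => min z (y l q)) (h l) Q (v i)| ≤ N / Real.log N ^ U)).card : ℝ) ≤
        Fintype.card ι / Real.log N ^ U

open Classical in
/-- The dual form, with absolute values for every modulus: for arbitrary coefficients `c_i` with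
`|c_i| ≤ log ^ T N`, the sum over all the `q ≤ Q` of `τ(q) ^ T` times the absolute value of the sum of
`c_i E(y(q); q, v i + h(q))` over the `i` with `v i + h(q)` coprime to `q` is at most `N #ι / log ^ U N`. -/
def Dual (E : ℕ → ℕ → ℤ → ℝ) (B T U K N : ℕ) {ι : Type} [Fintype ι] (v : ι → ℤ) : Prop :=
  ∀ H : Finset ℤ, (H.card : ℝ) ≤ Real.log N ^ T → (∀ τ ∈ H, |τ| ≤ B * N) →
    ∀ c : ι → ℝ, (∀ i, |c i| ≤ Real.log N ^ T) → ∀ Q : ℕ, (Q : ℝ) ≤ level K N →
      ∀ y : ℕ → ℕ, (∀ q, y q ≤ B * N) → ∀ h : ℕ → ℤ, (∀ q, h q ∈ H) →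
      ∑ q ∈ Icc 1 Q, (q.divisors.card : ℝ) ^ T * |∑ i ∈ univ.filter (fun i : ι => Int.gcd (v i + h q) q = 1),
        c i * E (y q) q (v i + h q)| ≤ N * Fintype.card ι / Real.log N ^ U

/-- The sets `D j i`, `i < k`, are sets of at least two digits in base `b`. -/
def Digits {J : Type} (b k : ℕ) (D : J → ℕ → Finset ℕ) : Prop := ∀ j, ∀ i < k, D j i ⊆ range b ∧ 2 ≤ (D j i).card

lemma pi_eq (y q : ℕ) (b : ℤ) : pi y q b = Pool.Agent.U856.EH.FZ Pool.Agent.U856.EH.pr y q b := by
  unfold pi Pool.Agent.U856.EH.FZ Pool.Agent.U856.EH.pr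
  rw [← sum_filter, filter_filter, sum_const, nsmul_eq_mul, mul_one]
  congr 2
  apply filter_congr
  intro n _
  exact and_comm

lemma allE (E : ℕ → ℕ → ℤ → ℝ) (hE : E = Epsi ∨ E = Epi) : Pool.Agent.U856.EH.AllD E := by
  rcases hE with h | h
  · rw [h]
    exact Pool.Agent.U856.EH.allS
  · have h1 : E = Pool.Agent.U856.EH.DP := by
      rw [h]
      funext y q b
      unfold Epi Pool.Agent.U856.EH.DP
      rw [pi_eq]
      rfl
    rw [h1]
    exact Pool.Agent.U856.EH.allP

lemma general (E : ℕ → ℕ → ℤ → ℝ) (hE : E = Epsi ∨ E = Epi) (B C T U p : ℕ) : ∃ K N₀ : ℕ, ∀ N : ℕ, N₀ ≤ N →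
    ∀ (ι : Type) [Fintype ι] (v : ι → ℤ), (∀ i, |v i| ≤ B * N) →
    (En p v : ℝ) * N ≤ Real.log N ^ C * (Fintype.card ι : ℝ) ^ (2 * p) →
    ∀ B' : ℕ, B' ≤ B → Almost E B' T U K N v ∧ Dual E B' T U K N v := by
  classical
  obtain ⟨K1, n1, h1⟩ := Pool.Agent.U856.EH.few E (allE E hE) p B C T U T
  obtain ⟨K2, n2, h2⟩ := Pool.Agent.U856.EH.dual E (allE E hE) p B C T U T
  obtain ⟨n3, h3⟩ := Pool.Agent.TH212.EH.large 1 (n1 + n2)
  refine ⟨K1 + K2, n3, fun N hN ι _ v hs hen B' hB => ?_⟩
  obtain ⟨hN1, _, hL⟩ := h3 N hN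
  have hBN : B' * N ≤ B * N := Nat.mul_le_mul_right _ hB
  have hBNz : ((B' : ℤ) * N) ≤ (B : ℤ) * N := by exact_mod_cast hBN
  constructor
  · intro H hH1 hH2 n hn lam y h hlam hy hh
    refine le_trans ?_ (h1 N (by omega) ι v hs hen H hH1 (fun τ hτ => (hH2 τ hτ).trans hBNz) n hn lam y h hlam
      (fun l q => (hy l q).trans hBN) hh)
    apply Nat.cast_le.2
    apply card_le_card
    intro i hi
    rw [mem_filter] at hi ⊢
    refine ⟨mem_univ _, fun hcon => hi.2 fun l Q hQ z hz => ?_⟩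
    exact hcon l Q (hQ.trans (Pool.Agent.U856.EH.level_anti K1 (K1 + K2) N (by omega) hL)) z (hz.trans hBN)
  · intro H hH1 hH2 c hc Q hQ y hy h hh
    exact h2 N (by omega) ι v hs hen H hH1 (fun τ hτ => (hH2 τ hτ).trans hBNz) c hc Q
      (hQ.trans (Pool.Agent.U856.EH.level_anti K2 (K1 + K2) N (by omega) hL)) y (fun q => (hy q).trans hBN) h hh

lemma family (E : ℕ → ℕ → ℤ → ℝ) (hE : E = Epsi ∨ E = Epi) (b r B B' T U : ℕ) (hb : 2 ≤ b) (hB : B ≤ B') :
    ∃ K k₀ : ℕ, ∀ k : ℕ, k₀ ≤ k → ∀ (J : Type) [Fintype J] [DecidableEq J] (D : J → ℕ → Finset ℕ), Digits b k D →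
      ∀ F : MvPolynomial J ℤ, F.totalDegree ≤ r + 2 →
      (∃ m : J →₀ ℕ, m.degree = r + 2 ∧ F.coeff m ≠ 0 ∧ |F.coeff m| ≤ (k : ℤ) ^ B) →
      ∀ c : ℤ, (∀ n ∈ Bo b k D, |c + val F n| ≤ B' * (b : ℤ) ^ ((r + 2) * k)) →
      Almost E B T U K (b ^ ((r + 2) * k)) (fun n : {n : J → ℕ // n ∈ Bo b k D} => c + val F n) ∧
      Dual E B T U K (b ^ ((r + 2) * k)) (fun n : {n : J → ℕ // n ∈ Bo b k D} => c + val F n) := by
  classical
  obtain ⟨h, k₁, hh, hhyp⟩ := hyp1 b r B hb
  obtain ⟨K, N₀, hN₀⟩ := general E hE B' (2 * B + 1) T U h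
  refine ⟨K, k₁ + N₀, fun k hk J _ _ D hD F hF hm c hc => ?_⟩
  obtain ⟨m, hm1, hm2, hm3⟩ := hm
  obtain ⟨⟨hl1, hl2, hkN⟩, hEn⟩ := hhyp k (by omega)
  have h1 := hEn J D hD F hF m hm1 hm2 hm3
  refine hN₀ (b ^ ((r + 2) * k)) (by omega) {n : J → ℕ // n ∈ Bo b k D} (fun n => c + val F n) ?_ ?_ B hB
  · intro n
    have := hc n n.2
    push_cast
    exact this
  · have e : En h (fun n : {n : J → ℕ // n ∈ Bo b k D} => c + val F n) = En h (fun n : {n : J → ℕ // n ∈ Bo b k D} => val F n) := by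
      have := Pool.Agent.R459.En_shift h (fun n : {n : J → ℕ // n ∈ Bo b k D} => val F n) c
      simp only [add_comm c]
      exact this
    rw [e]
    exact h1

/-- **The original level of Elliott and Halberstam along the values of polynomials at integers with restricted digits.**
Let `b ≥ 2`, `d ≥ 2`, `B`, `T`, `U` be fixed, and let `E(y; q, a)` be `ψ(y; q, a) - y / φ(q)` or
`π(y; q, a) - li y / φ(q)`.

(1) There is a `K` such that for all large `k`, `N = b ^ (d k)`, the following holds. Let `J` be an arbitrary finite set of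
variables, let `D j i` (`j ∈ J`, `i < k`) be arbitrary sets of at least two digits in base `b`, and let `F` be an arbitrary
polynomial with integer coefficients in the variables `x_j`, `j ∈ J`, of total degree `d`, such that at least one of the
nonzero coefficients of degree `d` is at most `k ^ B` in absolute value, and the values of `F` on the box
`Bo b k D` are at most `B N` in absolute value. Then the residues `F(n)`, where `n` runs through the tuples of integers
`0 ≤ n_j < b ^ k` with the digits number `i` in `D j i`, satisfy `Almost` and `Dual`, with the level `N / log ^ K N`.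

(2) For a fixed polynomial `F` of total degree at least two this holds without any further condition, uniformly for all the
residues `c + F(n)`, `|c| ≤ B N`.

(3) In particular it holds for the residues `c + det(a)`, `a` an `n × n` matrix (`n ≥ 2`) with entries whose digits
are restricted in this way. -/
theorem result (b d B T U : ℕ) (hb : 2 ≤ b) (hd : 2 ≤ d) (E : ℕ → ℕ → ℤ → ℝ) (hE : E = Epsi ∨ E = Epi) :
    (∃ K k₀ : ℕ, ∀ k : ℕ, k₀ ≤ k → ∀ (J : Type) [Fintype J] [DecidableEq J] (D : J → ℕ → Finset ℕ), Digits b k D →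
      ∀ F : MvPolynomial J ℤ, F.totalDegree = d →
      (∃ m : J →₀ ℕ, m.degree = d ∧ F.coeff m ≠ 0 ∧ |F.coeff m| ≤ (k : ℤ) ^ B) →
      (∀ n ∈ Bo b k D, |val F n| ≤ B * (b : ℤ) ^ (d * k)) →
      Almost E B T U K (b ^ (d * k)) (fun n : {n : J → ℕ // n ∈ Bo b k D} => val F n) ∧
      Dual E B T U K (b ^ (d * k)) (fun n : {n : J → ℕ // n ∈ Bo b k D} => val F n)) ∧
    (∀ (J : Type) [Fintype J] [DecidableEq J] (F : MvPolynomial J ℤ), 2 ≤ F.totalDegree →
      ∃ K k₀ : ℕ, ∀ k : ℕ, k₀ ≤ k → ∀ D : J → ℕ → Finset ℕ, Digits b k D →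
      ∀ c : ℤ, |c| ≤ B * (b : ℤ) ^ (F.totalDegree * k) →
      Almost E B T U K (b ^ (F.totalDegree * k)) (fun n : {n : J → ℕ // n ∈ Bo b k D} => c + val F n) ∧
      Dual E B T U K (b ^ (F.totalDegree * k)) (fun n : {n : J → ℕ // n ∈ Bo b k D} => c + val F n)) ∧
    (∀ n : ℕ, 2 ≤ n → ∃ K k₀ : ℕ, ∀ k : ℕ, k₀ ≤ k → ∀ D : Fin n × Fin n → ℕ → Finset ℕ, Digits b k D →
      ∀ c : ℤ, |c| ≤ B * (b : ℤ) ^ (n * k) →
      Almost E B T U K (b ^ (n * k)) (fun a : {a : Fin n × Fin n → ℕ // a ∈ Bo b k D} =>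
        c + (Matrix.of (fun i j => ((a : Fin n × Fin n → ℕ) (i, j) : ℤ))).det) ∧
      Dual E B T U K (b ^ (n * k)) (fun a : {a : Fin n × Fin n → ℕ // a ∈ Bo b k D} =>
        c + (Matrix.of (fun i j => ((a : Fin n × Fin n → ℕ) (i, j) : ℤ))).det)) := by
  classical
  have h2 : ∀ (J : Type) [Fintype J] [DecidableEq J] (F : MvPolynomial J ℤ), 2 ≤ F.totalDegree →
      ∃ K k₀ : ℕ, ∀ k : ℕ, k₀ ≤ k → ∀ D : J → ℕ → Finset ℕ, Digits b k D →
      ∀ c : ℤ, |c| ≤ B * (b : ℤ) ^ (F.totalDegree * k) →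
      Almost E B T U K (b ^ (F.totalDegree * k)) (fun n : {n : J → ℕ // n ∈ Bo b k D} => c + val F n) ∧
      Dual E B T U K (b ^ (F.totalDegree * k)) (fun n : {n : J → ℕ // n ∈ Bo b k D} => c + val F n) := by
    intro J _ _ F hF
    obtain ⟨r, hr⟩ : ∃ r, F.totalDegree = r + 2 := ⟨F.totalDegree - 2, by omega⟩
    have hF0 : F ≠ 0 := by
      rintro rfl
      simp at hF
    obtain ⟨m, hm1, hm2⟩ := exists_top F hF0
    obtain ⟨B₁, hB₁⟩ := eval_le F (r + 2) hr.le
    obtain ⟨K, k₀, h0⟩ := family E hE b r (B + 1) (B + 1 + B₁) T U hb (by omega)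
    refine ⟨K, k₀ + (F.coeff m).natAbs + 1, fun k hk D hD c hc => ?_⟩
    rw [hr] at hc ⊢
    have h3 := h0 k (by omega) J D hD F hr.le ⟨m, by rw [hm1, hr], hm2, ?_⟩ c ?_
    · -- from `B + 1` to `B`
      obtain ⟨h4, h5⟩ := h3
      have hBN : B * b ^ ((r + 2) * k) ≤ (B + 1) * b ^ ((r + 2) * k) := Nat.mul_le_mul_right _ (by omega)
      constructor
      · intro H hH1 hH2 n hn lam y h hlam hy hh
        refine le_trans ?_ (h4 H hH1 (fun τ hτ => (hH2 τ hτ).trans (by exact_mod_cast hBN)) n hn lam y h hlam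
          (fun l q => (hy l q).trans hBN) hh)
        apply Nat.cast_le.2
        apply card_le_card
        intro i hi
        rw [mem_filter] at hi ⊢
        exact ⟨mem_univ _, fun hcon => hi.2 fun l Q hQ z hz => hcon l Q hQ z (hz.trans hBN)⟩
      · intro H hH1 hH2 c' hc' Q hQ y hy h hh
        exact h5 H hH1 (fun τ hτ => (hH2 τ hτ).trans (by exact_mod_cast hBN)) c' hc' Q hQ y
          (fun q => (hy q).trans hBN) h hh
    · rw [Int.abs_eq_natAbs]
      have h6 : (F.coeff m).natAbs ≤ k := by omega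
      have h7 : k ≤ k ^ (B + 1) := Nat.le_self_pow (by omega) k
      exact_mod_cast h6.trans h7
    · intro n hn
      have h1 := hB₁ b k n (by omega) (fun j => Bo_lt b k D n hn j)
      have h3 : (0 : ℤ) < (b : ℤ) ^ ((r + 2) * k) := by positivity
      refine (abs_add_le _ _).trans ?_
      unfold Pool.Agent.U108.DP.val
      push_cast
      push_cast at h1
      nlinarith
  refine ⟨?_, h2, ?_⟩
  · obtain ⟨r, rfl⟩ : ∃ r, d = r + 2 := ⟨d - 2, by omega⟩
    obtain ⟨K, k₀, h⟩ := family E hE b r B B T U hb le_rfl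
    refine ⟨K, k₀, fun k hk J _ _ D hD F hF hm hv => ?_⟩
    have h3 := h k hk J D hD F hF.le hm 0 (by
      intro n hn
      rw [zero_add]
      exact hv n hn)
    simp only [zero_add] at h3
    exact h3
  · intro n hn
    obtain ⟨K, k₀, h⟩ := h2 (Fin n × Fin n) (detP n) (by rw [detP_degree]; exact hn)
    refine ⟨K, k₀, fun k hk D hD c hc => ?_⟩
    rw [detP_degree] at h
    have h3 := h k hk D hD c hc
    have e : (fun a : {a : Fin n × Fin n → ℕ // a ∈ Bo b k D} => c + (Matrix.of (fun i j => ((a : Fin n × Fin n → ℕ) (i, j) : ℤ))).det) =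
        (fun a : {a : Fin n × Fin n → ℕ // a ∈ Bo b k D} => c + val (detP n) a) := by
      funext a
      rw [val_detP]
    rw [e]
    exact h3

end Pool.Agent.Results.MP_00e23e_nt.PolynomialsRestrictedDigits
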